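import Pool.Agent.ZES.StmtsL

set_option autoImplicit false

/-!
# ZES, row CPT: cocompactness of the lattice vectors in a spanned subspace (helper85)
-/

namespace Pool.Agent.ZES.H85

open Pool.Agent.ZES

theorem cpt : CptStmt := by
  intro V _ _ _ L W hW
  have hfin : FiniteDimensional ℝ V := FiniteDimensional.complexToReal V
  have hfg : (Submodule.span ℝ {u : V | u ∈ L ∧ u ∈ W}).FG := IsNoetherian.noetherian _
  obtain ⟨s, hs, hsp⟩ := Submodule.fg_span_iff_fg_span_finset_subset _ |>.mp hfg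
  refine ⟨∑ a ∈ s, ‖a‖, Finset.sum_nonneg fun a _ => norm_nonneg a, ?_⟩
  intro w hw
  have h1 := hW w hw
  rw [hsp] at h1
  obtain ⟨f, -, hf⟩ := Submodule.mem_span_finset.mp h1
  refine ⟨∑ a ∈ s, ⌊f a⌋ • a, ?_, ?_, ?_⟩
  · exact AddSubgroup.sum_mem _ fun a ha => AddSubgroup.zsmul_mem _ (hs ha).1 _
  · exact Submodule.sum_mem _ fun a ha => zsmul_mem (hs ha).2 _
  · rw [← hf, ← Finset.sum_sub_distrib]
    refine (norm_sum_le _ _).trans (Finset.sum_le_sum fun a _ => ?_)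
    have h2 : f a • a - ⌊f a⌋ • a = Int.fract (f a) • a := by
      have h3 : (⌊f a⌋ : ℤ) • a = ((⌊f a⌋ : ℤ) : ℝ) • a := (Int.cast_smul_eq_zsmul ℝ _ _).symm
      rw [h3, ← sub_smul]
      rfl
    rw [h2, norm_smul, Real.norm_of_nonneg (Int.fract_nonneg _)]
    exact mul_le_of_le_one_left (norm_nonneg a) (Int.fract_lt_one _).le

end Pool.Agent.ZES.H85
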